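import Pool.Agent.H79.RD.Targets

/-! Modules DI, ST, MA of the board `rdh_modules`. -/

namespace Pool.Agent.H63.RDM

open Finset Pool.Agent.H79.RD

theorem pf_DI : T_DI := by
  intro N b k ζ0 evs
  induction evs with
  | nil => exact ⟨∅, by simp, fun i _ => rfl⟩
  | cons e l ih =>
    obtain ⟨J, hJ, h⟩ := ih
    refine ⟨insert e.i J, ?_, ?_⟩
    · refine (Finset.card_insert_le _ _).trans ?_
      simp only [List.length_cons]
      omega
    · intro i hi
      have h1 : i ≠ e.i := fun h => hi (by simp [h])
      have h2 : i ∉ J := fun h => hi (by simp [h])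
      simp only [cur]
      rw [Function.update_of_ne h1, h i h2]

section

variable {V : Type} [DecidableEq V] {N b k : ℕ}

theorem state_child (φ : Fin N → Fin b → V) (Forb : Finset (Idx N b k)) (g a a0 D L : ℕ)
    (z0 : V → Bool) (C C1 C2 : Clause V) (x : V) (d d1 d2 p : ℕ) (z : V → Bool)
    (Rv St : Finset V) (A : ℕ → Finset (Fin N)) (evs : List (Ev N b k))
    (hs : StateAt φ Forb g a a0 D L z0 C d p z Rv St A evs)
    (h1 : d1 < d) (h2 : d2 < d) (hC1 : C1 ⊆ insert (x, true) C) (hC2 : C2 ⊆ insert (x, false) C)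
    (z' : V → Bool) (A' : ℕ → Finset (Fin N)) (evs' : List (Ev N b k))
    (hf : Falsified C z') (hsat : Sat Forb (bv φ z') (Act φ g (insert x Rv)))
    (hcard : ∀ q, (A' q).card ≤ a) (hap : A' p = Act φ g (insert x Rv))
    (hh : Hist Forb A' (bv φ z0) (bv φ z') p evs')
    (hoff : ∀ u, (∀ i j, u ≠ φ i j) → z' u = z0 u) :
    StateAt φ Forb g a a0 D L z0 C1 d1 p z' (insert x Rv) St A' evs' ∨
    StateAt φ Forb g a a0 D L z0 C2 d2 p z' (insert x Rv) St A' evs' := by
  have hcardRv : ((insert x Rv) \ St).card ≤ (Rv \ St).card + 1 := by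
    have : (insert x Rv) \ St ⊆ insert x (Rv \ St) := by
      intro y hy
      simp only [Finset.mem_sdiff, Finset.mem_insert] at hy ⊢
      tauto
    exact (Finset.card_le_card this).trans (Finset.card_insert_le _ _)
  have hpot := hs.pot
  cases hx : z' x with
  | false =>
    left
    refine ⟨?_, ?_, hsat, hcard, hap, hh, hoff, ?_, hs.stc, hs.stu, ?_⟩
    · intro l hl
      rcases Finset.mem_insert.mp (hC1 hl) with h | h
      · subst h; simp [hx]
      · exact hf l h
    · intro l hl
      rcases Finset.mem_insert.mp (hC1 hl) with h | h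
      · subst h; simp
      · exact Finset.mem_insert_of_mem (hs.vrs l h)
    · exact hs.sub.trans (Finset.subset_insert _ _)
    · omega
  | true =>
    right
    refine ⟨?_, ?_, hsat, hcard, hap, hh, hoff, ?_, hs.stc, hs.stu, ?_⟩
    · intro l hl
      rcases Finset.mem_insert.mp (hC2 hl) with h | h
      · subst h; simp [hx]
      · exact hf l h
    · intro l hl
      rcases Finset.mem_insert.mp (hC2 hl) with h | h
      · subst h; simp
      · exact Finset.mem_insert_of_mem (hs.vrs l h)
    · exact hs.sub.trans (Finset.subset_insert _ _)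
    · omega

theorem p_lt {D L m p t : ℕ} (h1 : t + p * L ≤ D) (h2 : D < m * L) : p < m := by
  by_contra h
  push Not at h
  have := Nat.mul_le_mul_right L h
  omega

end

theorem pf_ST : T_AC → T_AG → T_AQ → T_ST := by
  intro hAC hAG hAQ V _ N b k g a a0 D L m R φ Forb z0 C C1 C2 x d d1 d2 p z Rv St A evs hinj hg
    hD hPE hPN hs hact h1 h2 hC1 hC2
  have hp : p < m := p_lt hs.pot hD
  rcases hAQ V N b g φ hinj Rv x with h | ⟨i, hi, h, hcard⟩
  · refine ⟨z, insert x Rv, A, evs, ?_⟩
    refine state_child φ Forb g a a0 D L z0 C C1 C2 x d d1 d2 p z Rv St A evs hs h1 h2 hC1 hC2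
      z A evs hs.fals ?_ hs.cardA ?_ hs.hist hs.off
    · rw [h]; exact hs.sat
    · rw [h]; exact hs.ap
  · have hap := hs.ap
    have hsat := hs.sat
    rw [← hap] at hsat hi h hact
    obtain ⟨ζ', evs', hz1, hz2, hh, hsat'⟩ := hAC N b k a g R m p Forb A (bv φ z0) (bv φ z) evs i
      (unr φ Rv i) hPE hPN hp hs.cardA hs.hist hsat hi (by omega) hcard
    obtain ⟨z', hbz, hoffz⟩ := hAG V N b φ hinj z ζ'
    have hkey : ∀ u ∈ Rv, z' u = z u := by
      intro u hu
      by_cases hb : ∀ i j, u ≠ φ i j
      · exact hoffz u hb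
      · push Not at hb
        obtain ⟨i', j', rfl⟩ := hb
        have e1 : z' (φ i' j') = ζ' i' j' := by rw [← hbz]; rfl
        rw [e1]
        by_cases hii : i' = i
        · subst hii
          rw [hz2 j' (by simp [unr, hu])]
          rfl
        · rw [hz1 i' hii]
          rfl
    refine ⟨z', insert x Rv, Function.update A p (insert i (A p)), evs', ?_⟩
    refine state_child φ Forb g a a0 D L z0 C C1 C2 x d d1 d2 p z Rv St A evs hs h1 h2 hC1 hC2
      z' (Function.update A p (insert i (A p))) evs' ?_ ?_ ?_ ?_ ?_ ?_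
    · intro l hl
      rw [hkey _ (hs.vrs l hl)]
      exact hs.fals l hl
    · rw [h, hbz]; exact hsat'
    · intro q
      by_cases hq : q = p
      · subst hq
        rw [Function.update_self]
        exact (Finset.card_insert_le _ _).trans (by omega)
      · rw [Function.update_of_ne hq]; exact hs.cardA q
    · rw [Function.update_self, h]
    · rw [hbz]; exact hh
    · intro u hu
      rw [hoffz u hu, hs.off u hu]

theorem pf_MA : T_LF → T_IN → T_ST → T_RS → T_DI → T_MA := by
  intro hLF hIN hST hRS hDI V _ N b k g a a0 D L m R S φ Forb hinj hk hg h2g ha0 haa hL hD hPE hPN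
    P z0
  have key : ∀ n : ℕ, ∀ v : Fin S, P.dep v = n →
      (∃ (p : ℕ) (z : V → Bool) (Rv St : Finset V) (A : ℕ → Finset (Fin N))
        (evs : List (Ev N b k)), StateAt φ Forb g a a0 D L z0 (P.C v) n p z Rv St A evs) →
      ∃ (v : Fin S) (z : V → Bool) (J : Finset (Fin N)),
        Falsified (P.C v) z ∧ Wide φ g a0 (P.C v) ∧ J.card ≤ R ∧
        ∀ u, (∀ i ∈ J, ∀ j, u ≠ φ i j) → z u = z0 u := by
    intro n
    induction n using Nat.strong_induction_on with
    | _ n ih =>
      intro v hv hst
      -- the step when the active set is small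
      have step : ∀ (p : ℕ) (z : V → Bool) (Rv St : Finset V) (A : ℕ → Finset (Fin N))
          (evs : List (Ev N b k)), StateAt φ Forb g a a0 D L z0 (P.C v) n p z Rv St A evs →
          (Act φ g Rv).card < a →
          ∃ (v : Fin S) (z : V → Bool) (J : Finset (Fin N)),
            Falsified (P.C v) z ∧ Wide φ g a0 (P.C v) ∧ J.card ≤ R ∧
            ∀ u, (∀ i ∈ J, ∀ j, u ≠ φ i j) → z u = z0 u := by
        intro p z Rv St A evs hs hact
        rcases P.rule v with ⟨c, hc, hcv⟩ | ⟨a', b', x, ha', hb', hCa, hCb⟩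
        · exact absurd hcv (hLF V N b k g a a0 D L φ Forb z0 (P.C v) n p z Rv St A evs hg hs c hc)
        · obtain ⟨z', Rv', A', evs', h⟩ := hST V N b k g a a0 D L m R φ Forb z0 (P.C v) (P.C a')
            (P.C b') x n (P.dep a') (P.dep b') p z Rv St A evs hinj hg hD hPE hPN hs hact
            (by omega) (by omega) hCa hCb
          rcases h with h | h
          · exact ih (P.dep a') (by omega) a' rfl ⟨p, z', Rv', St, A', evs', h⟩
          · exact ih (P.dep b') (by omega) b' rfl ⟨p, z', Rv', St, A', evs', h⟩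
      obtain ⟨p, z, Rv, St, A, evs, hs⟩ := hst
      by_cases hact : (Act φ g Rv).card < a
      · exact step p z Rv St A evs hs hact
      · push Not at hact
        by_cases hw : Wide φ g a0 (P.C v)
        · have hp : p < m := p_lt hs.pot hD
          obtain ⟨hcur, hev, hforb, hnodup, -⟩ := hs.hist
          obtain ⟨J, hJ, hJz⟩ := hDI N b k (bv φ z0) evs
          have hlen : evs.length < R := by
            refine hPN A hs.cardA (bv φ z0) evs ?_ hforb hnodup
            intro e he
            exact ⟨lt_of_le_of_lt (hev e he).1 hp, (hev e he).2⟩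
          refine ⟨v, z, J, hs.fals, hw, by omega, ?_⟩
          intro u hu
          by_cases hb : ∀ i j, u ≠ φ i j
          · exact hs.off u hb
          · push Not at hb
            obtain ⟨i, j, rfl⟩ := hb
            have hi : i ∉ J := fun hiJ => hu i hiJ j rfl
            have h3 := hJz i hi
            rw [hcur] at h3
            exact congrFun h3 j
        · obtain ⟨z', Rv', A', evs', h, hc⟩ := hRS V N b k g a a0 D L m R φ Forb z0 (P.C v) n p z Rv
            St A evs hinj hg haa hL hD hPE hPN hs hact hw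
          exact step (p + 1) z' Rv' Rv' A' evs' h (by omega)
  obtain ⟨i, hi, hdi⟩ := P.root
  refine key (P.dep i) i rfl ⟨0, z0, ∅, ∅, fun _ => ∅, [], ?_⟩
  rw [hi]
  exact hIN V N b k g a a0 D L (P.dep i) φ Forb z0 hk hg h2g ha0 hdi

end Pool.Agent.H63.RDM
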