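import Pool.Agent.H82.RD.Targets

/-!
# SAB: few primes are commensurable with a set of primes modulo a high power
-/

set_option autoImplicit false

open Finset

namespace Pool.Agent.H63.RD

open Pool.Agent.H82.RD

theorem factorial_card_le_prod (S : Finset ℕ) : (∀ l ∈ S, 1 ≤ l) → S.card.factorial ≤ ∏ l ∈ S, l := by
  induction S using Finset.induction_on_max with
  | empty => intro _; simp
  | insert a s ha ih =>
    intro h
    have hna : a ∉ s := fun h1 => lt_irrefl _ (ha a h1)
    rw [Finset.prod_insert hna, Finset.card_insert_of_notMem hna, Nat.factorial_succ]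
    refine Nat.mul_le_mul ?_ (ih fun l hl => h l (Finset.mem_insert_of_mem hl))
    have h1 : s ⊆ Finset.Ico 1 a := by
      intro l hl
      rw [Finset.mem_Ico]
      exact ⟨h l (Finset.mem_insert_of_mem hl), ha l hl⟩
    have h2 := Finset.card_le_card h1
    rw [Nat.card_Ico] at h2
    have h3 := h a (Finset.mem_insert_self _ _)
    omega

theorem sum_Tau (q τ : ℕ) (hq : 0 < qh q) (P : Finset ℕ) :
    ∑ c ∈ range (qh q), (Tau q τ c P).card = P.card.choose τ := by
  rw [← Finset.card_powersetCard τ P]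
  symm
  unfold Tau
  exact Finset.card_eq_sum_card_fiberwise (f := fun T : Finset ℕ => (∏ p ∈ T, p) % qh q)
    (t := range (qh q)) (s := P.powersetCard τ)
    (fun T _ => by
      simp only [Finset.coe_range, Set.mem_Iio]
      exact Nat.mod_lt _ hq)

theorem pf_SAB (hMTH : T_MTH) (hSMH : T_SMH) (hSNU : T_SNU) : T_SAB := by
  intro γ c hγ hc
  obtain ⟨X₀, τ, hX₀, hτ, hN⟩ := hSNU γ c hγ hc
  refine ⟨X₀, hX₀, ?_⟩
  intro X q e S P n α β hX hq hqX hS hSX he hP
  by_contra hcon
  rw [not_lt] at hcon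
  have : Fact q.Prime := ⟨hq⟩
  have hX1 : 1 ≤ X := by omega
  have hBd1 : 1 ≤ X ^ 30 := Nat.one_le_pow _ _ hX1
  have hr : S.card.factorial ≤ X :=
    (factorial_card_le_prod S fun l hl => (hS l hl).1.one_lt.le).trans hSX
  have hcop : ∀ l ∈ S, l.Coprime q := fun l hl => (Nat.coprime_primes (hS l hl).1 hq).2 (hS l hl).2
  have hqh0 : 0 < qh q := by
    unfold qh
    split_ifs
    · norm_num
    · exact hq.pos
  have hqhX : qh q ≤ 4 * X := by
    unfold qh
    split_ifs
    · omega
    · omega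
  have key : ∀ c' ∈ range (qh q), (Tau q τ c' P).card * (4 * X) < P.card.choose τ := by
    intro c' _
    obtain ⟨κ, W, num, ζ, hκ, hM⟩ := hSMH q e τ c' (X ^ 30) X S P n α β hτ hcop hP
    rw [max_eq_right hBd1] at hκ
    obtain ⟨A, B, hA, hB, h1, h2, h3, h4⟩ := hN X q S.card e κ P.card (X ^ 30) hX hq.two_le hqX hr he
      hBd1 le_rfl hκ hcon
    have h5 := hMTH q S.card (Finset ℕ) (Tau q τ c' P) W _ _ num ζ κ (e - 3) (1 + qh q) _ _ A B hM
      hA hB h1 h2 h3
    exact lt_of_le_of_lt (Nat.mul_le_mul_right _ h5) h4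
  have h6 : ∑ c' ∈ range (qh q), (Tau q τ c' P).card * (4 * X) <
      ∑ c' ∈ range (qh q), P.card.choose τ :=
    Finset.sum_lt_sum_of_nonempty ⟨0, Finset.mem_range.2 hqh0⟩ key
  rw [← Finset.sum_mul, sum_Tau q τ hqh0 P, Finset.sum_const, Finset.card_range, smul_eq_mul,
    Nat.mul_comm (qh q)] at h6
  exact absurd (Nat.mul_le_mul_left (P.card.choose τ) hqhX) (not_le.2 h6)

end Pool.Agent.H63.RD
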